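import Mathlib
import Pool.Agent.Helper69.DC.Goals

/-!
# DC, packet JET: the 1-jets are independent
-/

namespace Pool.Agent.Helper50.DC

open MvPolynomial Finset ComplexConjugate Pool.Agent.Helper69.DC

/-! ### Polynomials on lines -/

section line

variable {ι : Type}

/-- The restriction of a polynomial to the line `x + t y`. -/
noncomputable def LL (x y : ι → ℂ) : MvPolynomial ι ℂ →ₐ[ℂ] Polynomial ℂ :=
  aeval (fun i => Polynomial.C (x i) + Polynomial.C (y i) * Polynomial.X)

theorem LL_X (x y : ι → ℂ) (i : ι) :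
    LL x y (X i) = Polynomial.C (x i) + Polynomial.C (y i) * Polynomial.X := by
  simp [LL]

theorem LL_C (x y : ι → ℂ) (a : ℂ) : LL x y (C a) = Polynomial.C a := by
  simp [LL]

theorem eval_LL (x y : ι → ℂ) (t : ℂ) (p : MvPolynomial ι ℂ) :
    Polynomial.eval t (LL x y p) = eval (fun i => x i + y i * t) p := by
  induction p using MvPolynomial.induction_on with
  | C a => simp
  | add p q hp hq => simp [hp, hq]
  | mul_X p i hp => simp [hp, LL_X]

theorem coeff_zero_LL (x y : ι → ℂ) (p : MvPolynomial ι ℂ) :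
    (LL x y p).coeff 0 = eval x p := by
  rw [Polynomial.coeff_zero_eq_eval_zero, eval_LL]
  simp

variable [Fintype ι]

theorem derivative_LL (x y : ι → ℂ) (p : MvPolynomial ι ℂ) :
    Polynomial.derivative (LL x y p) = ∑ j, Polynomial.C (y j) * LL x y (pderiv j p) := by
  classical
  induction p using MvPolynomial.induction_on with
  | C a => simp [LL_C]
  | add p q hp hq =>
    rw [map_add, Polynomial.derivative_add, hp, hq, ← Finset.sum_add_distrib]
    refine Finset.sum_congr rfl fun j _ => ?_
    rw [map_add, map_add, mul_add]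
  | mul_X p i hp =>
    rw [map_mul, Polynomial.derivative_mul, hp, LL_X]
    have e : ∀ j, Polynomial.C (y j) * LL x y (pderiv j (p * X i)) =
        Polynomial.C (y j) * LL x y (pderiv j p) *
          (Polynomial.C (x i) + Polynomial.C (y i) * Polynomial.X) +
        (if j = i then Polynomial.C (y i) * LL x y p else 0) := by
      intro j
      rw [Derivation.leibniz, pderiv_X, smul_eq_mul, smul_eq_mul, map_add, map_mul, map_mul, LL_X]
      by_cases h : j = i
      · subst h
        simp
        ring
      · simp [h, Pi.single_apply]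
        ring
    rw [Finset.sum_congr rfl fun j _ => e j, Finset.sum_add_distrib, ← Finset.sum_mul]
    simp
    ring

theorem coeff_one_LL (x y : ι → ℂ) (p : MvPolynomial ι ℂ) :
    (LL x y p).coeff 1 = ∑ j, y j * eval x (pderiv j p) := by
  have h := congrArg (fun q => Polynomial.coeff q 0) (derivative_LL x y p)
  simp only [Polynomial.coeff_derivative, Polynomial.finsetSum_coeff] at h
  simp only [Polynomial.mul_coeff_zero, Polynomial.coeff_C_zero, coeff_zero_LL] at h
  simpa using h

/-- A polynomial `s` with `s' r = s r'`, `s(0) = 0`, `r(0) ≠ 0` is zero. -/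
theorem wronski {s r : Polynomial ℂ}
    (h : Polynomial.derivative s * r = s * Polynomial.derivative r)
    (h0 : s.coeff 0 = 0) (hr : r.coeff 0 ≠ 0) : s = 0 := by
  have key : ∀ n, ∀ i ≤ n, s.coeff i = 0 := by
    intro n
    induction n with
    | zero =>
      intro i hi
      rw [Nat.le_zero.1 hi]
      exact h0
    | succ n ih =>
      intro i hi
      rcases Nat.lt_or_ge i (n + 1) with h1 | h1
      · exact ih i (by omega)
      · have hin : i = n + 1 := by omega
        subst hin
        have h2 := congrArg (fun q => Polynomial.coeff q n) h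
        simp only [Polynomial.coeff_mul] at h2
        have e1 : ∑ x ∈ antidiagonal n, (Polynomial.derivative s).coeff x.1 * r.coeff x.2 =
            s.coeff (n + 1) * (n + 1) * r.coeff 0 := by
          rw [Finset.sum_eq_single (n, 0)]
          · rw [Polynomial.coeff_derivative]
          · intro x hx hne
            have hx' := Finset.HasAntidiagonal.mem_antidiagonal.1 hx
            have hlt : x.1 + 1 ≤ n := by
              rcases Nat.lt_or_ge x.1 n with h3 | h3
              · omega
              · exact absurd (Prod.ext (by show x.1 = n; omega) (by show x.2 = 0; omega)) hne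
            rw [Polynomial.coeff_derivative, ih _ hlt]
            simp
          · intro hx
            exact absurd (Finset.HasAntidiagonal.mem_antidiagonal.2 (by simp)) hx
        have e2 : ∑ x ∈ antidiagonal n, s.coeff x.1 * (Polynomial.derivative r).coeff x.2 = 0 := by
          refine Finset.sum_eq_zero fun x hx => ?_
          have hx' := Finset.HasAntidiagonal.mem_antidiagonal.1 hx
          rw [ih x.1 (by omega)]
          simp
        rw [e1, e2] at h2
        have h3 : ((n : ℂ) + 1) ≠ 0 := Nat.cast_add_one_ne_zero n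
        rcases mul_eq_zero.1 h2 with h4 | h4
        · rcases mul_eq_zero.1 h4 with h5 | h5
          · exact h5
          · exact absurd h5 h3
        · exact absurd h4 hr
  ext i
  rw [key i i le_rfl, Polynomial.coeff_zero]

/-- Proportionality from the vanishing of the Wronskians. -/
theorem proportional {p q : MvPolynomial ι ℂ} (h : ∀ j, p * pderiv j q = q * pderiv j p)
    (hq : q ≠ 0) : ∃ c : ℂ, p = C c * q := by
  obtain ⟨x₀, hx₀⟩ : ∃ x₀, eval x₀ q ≠ 0 := by
    by_contra hcon
    push Not at hcon
    exact hq (MvPolynomial.funext fun x => by rw [hcon x, map_zero])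
  refine ⟨eval x₀ p / eval x₀ q, ?_⟩
  obtain ⟨S, hS⟩ : ∃ S : MvPolynomial ι ℂ, S = p - C (eval x₀ p / eval x₀ q) * q := ⟨_, rfl⟩
  have hSj : ∀ j, pderiv j S * q = S * pderiv j q := by
    intro j
    have e : pderiv j S = pderiv j p - C (eval x₀ p / eval x₀ q) * pderiv j q := by
      rw [hS, map_sub, Derivation.leibniz, pderiv_C]
      simp
    rw [e, hS, sub_mul, sub_mul, h j]
    ring
  have hS0 : eval x₀ S = 0 := by
    rw [hS]
    simp
    field_simp
    ring
  have hSz : S = 0 := by
    refine MvPolynomial.funext fun x => ?_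
    have h1 : LL x₀ (fun i => x i - x₀ i) S = 0 := by
      refine wronski (r := LL x₀ (fun i => x i - x₀ i) q) ?_ ?_ ?_
      · rw [derivative_LL, derivative_LL, Finset.sum_mul, Finset.mul_sum]
        refine Finset.sum_congr rfl fun j _ => ?_
        have h2 := congrArg (LL x₀ (fun i => x i - x₀ i)) (hSj j)
        rw [map_mul, map_mul] at h2
        rw [mul_assoc, h2]
        ring
      · rw [coeff_zero_LL, hS0]
      · rw [coeff_zero_LL]
        exact hx₀
    have h2 := congrArg (Polynomial.eval 1) h1
    rw [eval_LL] at h2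
    simpa using h2
  rw [hS] at hSz
  exact sub_eq_zero.1 hSz

end line

/-! ### The Hermitian form -/

section herm

variable {N : ℕ}

theorem hf_add_left (x y z : Fin (N + 1) → ℂ) : hf (x + y) z = hf x z + hf y z := by
  simp only [hf, Pi.add_apply, add_mul, Finset.sum_add_distrib]
  ring

theorem hf_smul_left (c : ℂ) (x z : Fin (N + 1) → ℂ) : hf (c • x) z = c * hf x z := by
  simp only [hf, Pi.smul_apply, smul_eq_mul, mul_assoc, ← Finset.mul_sum]
  ring

theorem hf_conj (x z : Fin (N + 1) → ℂ) : hf x z = conj (hf z x) := by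
  simp only [hf, map_sub, map_sum, map_mul, Complex.conj_conj]
  congr 1
  · ring
  · exact Finset.sum_congr rfl fun j _ => by ring

theorem hf_add_right (x y z : Fin (N + 1) → ℂ) : hf z (x + y) = hf z x + hf z y := by
  rw [hf_conj, hf_add_left, map_add, ← hf_conj, ← hf_conj]

theorem hf_smul_right (c : ℂ) (x z : Fin (N + 1) → ℂ) : hf z (c • x) = conj c * hf z x := by
  rw [hf_conj, hf_smul_left, map_mul, ← hf_conj]

end herm

/-! ### Values at points -/

section values

variable {m N : ℕ} (f : Fin (N + 1) → MvPolynomial (Fin m ⊕ Unit) ℂ)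

theorem eval_aeval' {σ τ : Type} (g : σ → MvPolynomial τ ℂ) (x : τ → ℂ) (p : MvPolynomial σ ℂ) :
    eval x (aeval g p) = eval (fun i => eval x (g i)) p := by
  induction p using MvPolynomial.induction_on with
  | C a => simp
  | add p q hp hq => rw [map_add, map_add, hp, hq, map_add]
  | mul_X p i hp => rw [map_mul, map_mul, hp, map_mul, aeval_X, eval_X]

theorem eval_gg (β β' : Fin m → ℂ) (b : ℂ) (k : Fin (N + 1)) :
    eval (pt β β' b) (gg f k) = eval (Sum.elim β fun _ => ∑ i, β i * β' i - b) (f k) := by
  rw [gg, eval_aeval']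
  congr 2
  funext j
  rcases j with j | j
  · simp [pt]
  · simp [pt]

theorem pderiv_aeval_gg (i : Fin m) (p : MvPolynomial (Fin m ⊕ Unit) ℂ) :
    pderiv (Sum.inl i) (aeval (Sum.elim (fun i => X (Sum.inl i))
      (fun _ => ∑ i, X (Sum.inl i) * X (Sum.inr (Sum.inl i)) - X (Sum.inr (Sum.inr ())))) p :
        MvPolynomial (V3 m) ℂ) =
    aeval (Sum.elim (fun i => X (Sum.inl i))
      (fun _ => ∑ i, X (Sum.inl i) * X (Sum.inr (Sum.inl i)) - X (Sum.inr (Sum.inr ()))))
        (pderiv (Sum.inl i) p) +
    X (Sum.inr (Sum.inl i)) * aeval (Sum.elim (fun i => X (Sum.inl i))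
      (fun _ => ∑ i, X (Sum.inl i) * X (Sum.inr (Sum.inl i)) - X (Sum.inr (Sum.inr ()))))
        (pderiv (Sum.inr ()) p) := by
  classical
  induction p using MvPolynomial.induction_on with
  | C a => simp
  | add p q hp hq =>
    simp only [map_add, hp, hq]
    ring
  | mul_X p j hp =>
    rw [map_mul, Derivation.leibniz, hp]
    rcases j with j | j
    · simp only [aeval_X, Sum.elim_inl, smul_eq_mul, Derivation.leibniz, pderiv_X, map_add, map_mul]
      by_cases h : i = j
      · subst h
        simp [Pi.single_apply]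
        ring
      · simp [Pi.single_apply, h]
        ring
    · simp only [aeval_X, Sum.elim_inr, smul_eq_mul, Derivation.leibniz, pderiv_X, map_add, map_mul,
        map_sub, map_sum]
      simp [Pi.single_apply]
      ring

theorem eval_DD (β β' : Fin m → ℂ) (b : ℂ) (k : Fin (N + 1)) (i : Fin m) :
    eval (pt β β' b) (DD i.succ (gg f k)) =
      eval (Sum.elim β fun _ => ∑ i, β i * β' i - b) (pderiv (Sum.inl i) (f k)) +
      β' i * eval (Sum.elim β fun _ => ∑ i, β i * β' i - b) (pderiv (Sum.inr ()) (f k)) := by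
  have h : DD i.succ (gg f k) = pderiv (Sum.inl i) (gg f k) := by
    simp [DD]
  rw [h, gg, pderiv_aeval_gg, map_add, map_mul, eval_aeval', eval_aeval']
  have e : (fun j => eval (pt β β' b) ((Sum.elim (fun i => X (Sum.inl i))
      (fun _ => ∑ i, X (Sum.inl i) * X (Sum.inr (Sum.inl i)) - X (Sum.inr (Sum.inr ()))) :
        Fin m ⊕ Unit → MvPolynomial (V3 m) ℂ) j)) =
      Sum.elim β fun _ => ∑ i, β i * β' i - b := by
    funext j
    rcases j with j | j
    · simp [pt]
    · simp [pt]
  rw [e]
  simp [pt]

theorem la_eq (β : Fin m → ℂ) (a : ℂ) (v : Fin m → ℂ) (c : ℂ) (k : Fin (N + 1)) :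
    la f β a v c k = LL (Sum.elim β fun _ => a) (Sum.elim v fun _ => c) (f k) := by
  rw [la, LL]
  congr 2
  funext j
  rcases j with j | j <;> simp

theorem AJ_one (β : Fin m → ℂ) (a : ℂ) (v : Fin m → ℂ) (k : Fin (N + 1)) :
    AJ f β a v 1 k = ∑ i, v i * (eval (Sum.elim β fun _ => a) (pderiv (Sum.inl i) (f k)) +
      conj (β i) * eval (Sum.elim β fun _ => a) (pderiv (Sum.inr ()) (f k))) := by
  rw [AJ, la_eq, coeff_one_LL]
  simp only [Fintype.sum_sum_type, Sum.elim_inl, Sum.elim_inr, Finset.univ_unique,
    Finset.sum_singleton, mul_add, Finset.sum_add_distrib, Finset.sum_mul, mul_assoc]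

theorem AJ_add (β : Fin m → ℂ) (a : ℂ) (u w : Fin m → ℂ) :
    AJ f β a (u + w) 1 = AJ f β a u 1 + AJ f β a w 1 := by
  funext k
  rw [Pi.add_apply, AJ_one, AJ_one, AJ_one, ← Finset.sum_add_distrib]
  exact Finset.sum_congr rfl fun i _ => by rw [Pi.add_apply]; ring

theorem AJ_smul (β : Fin m → ℂ) (a : ℂ) (c : ℂ) (u : Fin m → ℂ) :
    AJ f β a (c • u) 1 = c • AJ f β a u 1 := by
  funext k
  rw [Pi.smul_apply, AJ_one, AJ_one, smul_eq_mul, Finset.mul_sum]
  exact Finset.sum_congr rfl fun i _ => by rw [Pi.smul_apply, smul_eq_mul]; ring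

end values

theorem sum_conj_self {m : ℕ} (v : Fin m → ℂ) :
    ∑ i, v i * conj (v i) = ((∑ i, ‖v i‖ ^ 2 : ℝ) : ℂ) := by
  push_cast
  exact Finset.sum_congr rfl fun i _ => Complex.mul_conj' (v i)

theorem sum_sq_pos {m : ℕ} {v : Fin m → ℂ} (hv : v ≠ 0) : 0 < ∑ i, ‖v i‖ ^ 2 := by
  obtain ⟨i, hi⟩ := Function.ne_iff.1 hv
  exact Finset.sum_pos' (fun i _ => by positivity) ⟨i, Finset.mem_univ i, by
    have : 0 < ‖v i‖ := norm_pos_iff.2 hi
    positivity⟩

/-- If the first derivative in one direction is proportional to the value, so are all. -/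
theorem par (h2 : G_HF2) (h3 : G_AJO) {m N d : ℕ}
    {f : Fin (N + 1) → MvPolynomial (Fin m ⊕ Unit) ℂ} (hS : SMap m N d f) {β : Fin m → ℂ} {a : ℂ}
    (hN : Null β a) (hA : fv f β a ≠ 0) {v : Fin m → ℂ} (hv : v ≠ 0) {q : ℂ}
    (hq : AJ f β a v 1 = q • fv f β a) (u : Fin m → ℂ) :
    ∃ c : ℂ, AJ f β a u 1 = c • fv f β a := by
  obtain ⟨H1, H2, H3, -, -⟩ := h3 m N d f hS β a hN
  have h00 : hf (fv f β a) (fv f β a) = 0 := by
    have := H2 0 0
    rwa [H3] at this
  have hnv := sum_sq_pos hv
  obtain ⟨nv, hnve⟩ : ∃ nv : ℝ, nv = ∑ i, ‖v i‖ ^ 2 := ⟨_, rfl⟩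
  rw [← hnve] at hnv
  have hvv : ∑ i, v i * conj (v i) = (nv : ℂ) := by rw [sum_conj_self, hnve]
  have hnvc : (nv : ℂ) ≠ 0 := by exact_mod_cast hnv.ne'
  obtain ⟨α, hα⟩ : ∃ α : ℂ, α = (∑ i, u i * conj (v i)) / (nv : ℂ) := ⟨_, rfl⟩
  obtain ⟨w, hw⟩ : ∃ w : Fin m → ℂ, w = u + (-α) • v := ⟨_, rfl⟩
  have hu : u = α • v + w := by
    rw [hw]
    funext i
    simp
  have hwv : ∑ i, w i * conj (v i) = 0 := by
    have e : ∀ i, w i * conj (v i) = u i * conj (v i) - α * (v i * conj (v i)) := by
      intro i
      rw [hw]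
      simp
      ring
    rw [Finset.sum_congr rfl fun i _ => e i, Finset.sum_sub_distrib, ← Finset.mul_sum, hvv, hα]
    field_simp
    ring
  have hvw : ∑ i, v i * conj (w i) = 0 := by
    have e : ∑ i, v i * conj (w i) = conj (∑ i, w i * conj (v i)) := by
      rw [map_sum]
      exact Finset.sum_congr rfl fun i _ => by
        rw [map_mul, Complex.conj_conj]
        ring
    rw [e, hwv, map_zero]
  obtain ⟨nw, hnw⟩ : ∃ nw : ℝ, nw = ∑ i, ‖w i‖ ^ 2 := ⟨_, rfl⟩
  have hnw0 : 0 ≤ nw := by
    rw [hnw]
    positivity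
  have hww : ∑ i, w i * conj (w i) = (nw : ℂ) := by rw [sum_conj_self, hnw]
  obtain ⟨r, hr⟩ : ∃ r : ℝ, r * r * nv = nw := ⟨√(nw / nv), by
    rw [Real.mul_self_sqrt (by positivity)]
    field_simp⟩
  have hrc : (r : ℂ) * (r : ℂ) * (nv : ℂ) = (nw : ℂ) := by exact_mod_cast hr
  have hort : ∑ i, ((r : ℂ) • v + w) i * conj (((r : ℂ) • v + (-1 : ℂ) • w) i) = 0 := by
    have e : ∀ i, ((r : ℂ) • v + w) i * conj (((r : ℂ) • v + (-1 : ℂ) • w) i) =
        (r : ℂ) * (r : ℂ) * (v i * conj (v i)) - (r : ℂ) * (v i * conj (w i)) +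
        (r : ℂ) * (w i * conj (v i)) - w i * conj (w i) := by
      intro i
      simp only [Pi.add_apply, Pi.smul_apply, smul_eq_mul, map_add, map_mul, Complex.conj_ofReal,
        map_neg, map_one]
      ring
    rw [Finset.sum_congr rfl fun i _ => e i, Finset.sum_sub_distrib, Finset.sum_add_distrib,
      Finset.sum_sub_distrib, ← Finset.mul_sum, ← Finset.mul_sum, ← Finset.mul_sum, hvv, hvw, hwv,
      hww, hrc]
    ring
  have hB := H1 _ _ hort 1 1
  have hUA : hf (AJ f β a w 1) (fv f β a) = 0 := H2 w 1
  have hAU : hf (fv f β a) (AJ f β a w 1) = 0 := by rw [hf_conj, hUA, map_zero]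
  rw [AJ_add, AJ_add, AJ_smul, AJ_smul, hq] at hB
  simp only [hf_add_left, hf_add_right, hf_smul_left, hf_smul_right, h00, hUA, hAU] at hB
  have hUU : hf (AJ f β a w 1) (AJ f β a w 1) = 0 := by
    have h4 : conj (-1 : ℂ) = -1 := by simp
    rw [h4] at hB
    linear_combination -hB
  obtain ⟨c, hc⟩ := h2 N (fv f β a) (AJ f β a w 1) hA h00 hUU hUA
  refine ⟨α * q + c, ?_⟩
  rw [hu, AJ_add, AJ_smul, hq, hc, smul_smul, add_smul]

theorem g_jet (h1 : G_LD3) (h2 : G_HF2) (h3 : G_AJO) : G_JET := by
  classical
  intro m N d f hS hm hd Q hQ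
  have hg0 : ∀ k, gg f k = 0 → f k = 0 := by
    intro k hk
    refine MvPolynomial.funext fun x => ?_
    have h := congrArg (eval (pt (fun i => x (Sum.inl i)) 0 (-x (Sum.inr ())))) hk
    rw [eval_gg, map_zero] at h
    rw [map_zero, ← h]
    congr 2
    funext j
    rcases j with j | j <;> simp
  have hne : ∃ k₀, f k₀ ≠ 0 := by
    by_contra hcon
    push Not at hcon
    exact not_isUnit_zero (hS.cop 0 fun k => by rw [hcon k])
  obtain ⟨k₀, hk₀⟩ := hne
  have hgk₀ : gg f k₀ ≠ 0 := fun h => hk₀ (hg0 k₀ h)
  by_cases hs : ∀ i : Fin m, Q i.succ = 0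
  · intro i
    refine Fin.cases ?_ hs i
    have h := hQ k₀
    rw [Fin.sum_univ_succ] at h
    simp only [hs, zero_mul, Finset.sum_const_zero, add_zero] at h
    have e : DD 0 (gg f k₀) = gg f k₀ := rfl
    rw [e] at h
    exact (mul_eq_zero.1 h).resolve_right hgk₀
  · exfalso
    push Not at hs
    obtain ⟨i₀, hi₀⟩ := hs
    have hkey : ∀ k l i, gg f k * DD (Fin.succ i) (gg f l) = gg f l * DD (Fin.succ i) (gg f k) := by
      intro k l i
      have h5 : Q i₀.succ * gg f k₀ *
          (gg f k * DD (Fin.succ i) (gg f l) - gg f l * DD (Fin.succ i) (gg f k)) = 0 := by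
        refine h1 m _ fun β b hb => ?_
        rw [map_mul, map_mul, map_sub, map_mul, map_mul]
        by_cases hz1 : eval (pt β (fun i => conj (β i)) b) (Q i₀.succ) = 0
        · rw [hz1]
          ring
        by_cases hz2 : eval (pt β (fun i => conj (β i)) b) (gg f k₀) = 0
        · rw [hz2]
          ring
        have ha : ∑ i, β i * conj (β i) - b = conj b := by
          rw [← hb]
          ring
        have hN : Null β (conj b) := by
          rw [Null, Complex.conj_conj, ← hb]
          ring
        have hv : ∀ k, eval (pt β (fun i => conj (β i)) b) (gg f k) = fv f β (conj b) k := by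
          intro k
          rw [eval_gg, ha, fv]
        have hE : ∀ u k, AJ f β (conj b) u 1 k =
            ∑ i, u i * eval (pt β (fun i => conj (β i)) b) (DD (Fin.succ i) (gg f k)) := by
          intro u k
          rw [AJ_one]
          refine Finset.sum_congr rfl fun i _ => ?_
          rw [eval_DD, ha]
        have hA : fv f β (conj b) ≠ 0 := by
          intro h
          rw [hv, h] at hz2
          exact hz2 rfl
        obtain ⟨v, hvd⟩ : ∃ v : Fin m → ℂ,
          v = fun i => eval (pt β (fun i => conj (β i)) b) (Q (Fin.succ i)) := ⟨_, rfl⟩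
        have hv0 : v ≠ 0 := by
          intro h
          have := congrFun h i₀
          rw [hvd] at this
          exact hz1 this
        have hq : AJ f β (conj b) v 1 =
            (-eval (pt β (fun i => conj (β i)) b) (Q 0)) • fv f β (conj b) := by
          funext k
          rw [hE, Pi.smul_apply, smul_eq_mul]
          have h := congrArg (eval (pt β (fun i => conj (β i)) b)) (hQ k)
          rw [Fin.sum_univ_succ, map_add, map_mul, map_sum, map_zero] at h
          have e : DD 0 (gg f k) = gg f k := rfl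
          rw [e, hv] at h
          have e2 : ∑ i : Fin m, v i *
              eval (pt β (fun i => conj (β i)) b) (DD (Fin.succ i) (gg f k)) =
              ∑ i : Fin m, eval (pt β (fun i => conj (β i)) b)
                (Q (Fin.succ i) * DD (Fin.succ i) (gg f k)) := by
            refine Finset.sum_congr rfl fun i _ => ?_
            rw [map_mul, hvd]
          rw [e2]
          linear_combination h
        obtain ⟨c, hc⟩ := par h2 h3 hS hN hA hv0 hq (Pi.single i 1)
        have hcE : ∀ k, eval (pt β (fun i => conj (β i)) b) (DD (Fin.succ i) (gg f k)) =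
            c * fv f β (conj b) k := by
          intro k
          have h := congrFun hc k
          rw [hE, Pi.smul_apply, smul_eq_mul] at h
          rw [← h, Finset.sum_eq_single i]
          · simp
          · intro j _ hj
            simp [hj]
          · intro h
            exact absurd (Finset.mem_univ i) h
        rw [hcE, hcE, hv k, hv l]
        ring
      rcases mul_eq_zero.1 h5 with h6 | h6
      · rcases mul_eq_zero.1 h6 with h7 | h7
        · exact absurd h7 hi₀
        · exact absurd h7 hgk₀
      · exact sub_eq_zero.1 h6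
    have hval : ∀ (k l : Fin (N + 1)) (i : Fin m) (x : Fin m ⊕ Unit → ℂ) (β' : Fin m → ℂ),
        eval x (f k) * (eval x (pderiv (Sum.inl i) (f l)) +
          β' i * eval x (pderiv (Sum.inr ()) (f l))) =
        eval x (f l) * (eval x (pderiv (Sum.inl i) (f k)) +
          β' i * eval x (pderiv (Sum.inr ()) (f k))) := by
      intro k l i x β'
      have h := congrArg (eval (pt (fun i => x (Sum.inl i)) β'
        (∑ i, x (Sum.inl i) * β' i - x (Sum.inr ())))) (hkey k l i)
      have e : (Sum.elim (fun i => x (Sum.inl i)) fun _ : Unit => ∑ i, x (Sum.inl i) * β' i -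
          (∑ i, x (Sum.inl i) * β' i - x (Sum.inr ()))) = x := by
        funext j
        rcases j with j | j <;> simp
      rw [map_mul, map_mul, eval_gg, eval_gg, eval_DD, eval_DD, e] at h
      exact h
    have hwr : ∀ (k l : Fin (N + 1)) (j : Fin m ⊕ Unit),
        f k * pderiv j (f l) = f l * pderiv j (f k) := by
      intro k l j
      refine MvPolynomial.funext fun x => ?_
      rw [map_mul, map_mul]
      rcases j with i | j
      · have h := hval k l i x 0
        simpa using h
      · have h := hval k l ⟨0, hm⟩ x 0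
        have h' := hval k l ⟨0, hm⟩ x 1
        simp only [Pi.zero_apply, zero_mul, add_zero] at h
        simp only [Pi.one_apply, one_mul] at h'
        linear_combination h' - h
    have hpr : ∀ k, ∃ c : ℂ, f k = C c * f k₀ := fun k => proportional (hwr k k₀) hk₀
    have hun : IsUnit (f k₀) := hS.cop (f k₀) fun k => by
      obtain ⟨c, hc⟩ := hpr k
      exact ⟨C c, by rw [hc]; ring⟩
    have hdeg : (f k₀).totalDegree = 0 :=
      (MvPolynomial.isUnit_iff_totalDegree_of_isReduced.1 hun).2
    obtain ⟨k, hk⟩ := hS.top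
    obtain ⟨c, hc⟩ := hpr k
    have h8 : (f k).totalDegree ≤ 0 := by
      rw [hc]
      refine (totalDegree_mul _ _).trans ?_
      rw [totalDegree_C, hdeg]
    omega

end Pool.Agent.Helper50.DC
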